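import Pool.Agent.BCS.Stmts

/-! DUI of squad BCS: differentiation under the integral over the torus (helper75). -/

set_option autoImplicit false

namespace Pool.Agent.BCS.H75

open MeasureTheory Set Filter Topology
open scoped ContDiff

section Gen

variable {E W : Type} [NormedAddCommGroup E] [NormedSpace ℝ E] [NormedAddCommGroup W]
  [NormedSpace ℝ W]

/-- The partial derivative. -/
theorem part_hasFDeriv {F : Type} [NormedAddCommGroup F] [NormedSpace ℝ F] {H : E → W → F} {m : ℕ}
    (hH : ContDiff ℝ ((m + 1 : ℕ) : WithTop ℕ∞) (fun x : E × W => H x.1 x.2)) (q : E) (s : W) :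
    HasFDerivAt (fun x => H x s)
      ((fderiv ℝ (fun x : E × W => H x.1 x.2) (q, s)).comp (ContinuousLinearMap.inl ℝ E W)) q := by
  have h1 : DifferentiableAt ℝ (fun x : E × W => H x.1 x.2) (q, s) :=
    (hH.differentiable (by simp)) _
  have h2 : HasFDerivAt (fun x : E => (x, s)) (ContinuousLinearMap.inl ℝ E W) q :=
    hasFDerivAt_prodMk_left q s
  exact HasFDerivAt.comp (g := fun x : E × W => H x.1 x.2) q h1.hasFDerivAt h2

theorem part_contDiff {F : Type} [NormedAddCommGroup F] [NormedSpace ℝ F] {H : E → W → F} {m : ℕ}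
    (hH : ContDiff ℝ ((m + 1 : ℕ) : WithTop ℕ∞) (fun x : E × W => H x.1 x.2)) :
    ContDiff ℝ (m : WithTop ℕ∞) (fun x : E × W => fderiv ℝ (fun y => H y x.2) x.1) := by
  have h1 : ContDiff ℝ (m : WithTop ℕ∞) (fderiv ℝ (fun x : E × W => H x.1 x.2)) :=
    hH.fderiv_right (by push_cast; exact le_rfl)
  have h2 : ContDiff ℝ (m : WithTop ℕ∞) (fun z : E × W =>
      (fderiv ℝ (fun x : E × W => H x.1 x.2) z).comp (ContinuousLinearMap.inl ℝ E W)) :=
    h1.clm_comp contDiff_const
  have e : (fun x : E × W => fderiv ℝ (fun y => H y x.2) x.1) = fun z : E × W =>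
      (fderiv ℝ (fun x : E × W => H x.1 x.2) z).comp (ContinuousLinearMap.inl ℝ E W) := by
    funext z
    exact (part_hasFDeriv hH z.1 z.2).fderiv
  rw [e]; exact h2

end Gen

variable {E W : Type} [NormedAddCommGroup E] [NormedSpace ℝ E] [ProperSpace E]
  [NormedAddCommGroup W] [NormedSpace ℝ W] [MeasurableSpace W] [BorelSpace W]
  [SecondCountableTopology W] {μ : Measure W} [IsLocallyFiniteMeasure μ]
  [IsFiniteMeasureOnCompacts μ]

theorem int_slice {F : Type} [NormedAddCommGroup F] [NormedSpace ℝ F]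
    {K : Set W} (hK : IsCompact K) {G : E × W → F} (hG : Continuous G) (q : E) :
    Integrable (fun t => G (q, t)) (μ.restrict K) := by
  have h : Continuous (fun t => G (q, t)) := by fun_prop
  exact h.continuousOn.integrableOn_compact hK

/-- differentiation under the integral sign -/
theorem hasFDeriv_int {F : Type} [NormedAddCommGroup F] [NormedSpace ℝ F]
    {K : Set W} (hK : IsCompact K) {H : E → W → F} {m : ℕ}
    (hH : ContDiff ℝ ((m + 1 : ℕ) : WithTop ℕ∞) (fun x : E × W => H x.1 x.2)) (q0 : E) :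
    HasFDerivAt (fun q => ∫ s in K, H q s ∂μ)
      (∫ s in K, fderiv ℝ (fun x => H x s) q0 ∂μ) q0 := by
  have hG : Continuous (fun x : E × W => fderiv ℝ (fun z => H z x.2) x.1) :=
    (part_contDiff hH).continuous
  have hHc : Continuous (fun x : E × W => H x.1 x.2) := hH.continuous
  have hKc : IsCompact (Metric.closedBall q0 1 ×ˢ K) := (isCompact_closedBall q0 1).prod hK
  obtain ⟨C, hC⟩ := hKc.exists_bound_of_continuousOn hG.continuousOn
  have hun : Metric.ball q0 1 ∈ 𝓝 q0 := Metric.ball_mem_nhds q0 one_pos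
  refine hasFDerivAt_integral_of_dominated_of_fderiv_le (s := Metric.ball q0 1)
    (F' := fun q s => fderiv ℝ (fun z => H z s) q) (bound := fun _ => C) hun ?_ ?_ ?_ ?_ ?_ ?_
  · exact Eventually.of_forall fun x => (int_slice hK hHc x).aestronglyMeasurable
  · exact int_slice hK hHc q0
  · exact (int_slice hK hG q0).aestronglyMeasurable
  · filter_upwards [ae_restrict_mem hK.measurableSet] with t ht x hx
    exact hC (x, t) (mk_mem_prod (Metric.ball_subset_closedBall hx) ht)
  · exact integrableOn_const hK.measure_ne_top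
  · refine Eventually.of_forall fun t x _ => ?_
    have h := part_hasFDeriv hH x t
    have e : fderiv ℝ (fun z => H z t) x = _ := h.fderiv
    show HasFDerivAt (fun x => H x t) (fderiv ℝ (fun z => H z t) x) x
    rw [e]; exact h

/-- smoothness -/
theorem contDiff_int (n : ℕ) : ∀ (F : Type) [NormedAddCommGroup F] [NormedSpace ℝ F]
    {K : Set W} (_ : IsCompact K) (H : E → W → F)
    (_ : ContDiff ℝ (n : WithTop ℕ∞) (fun x : E × W => H x.1 x.2)),
    ContDiff ℝ (n : WithTop ℕ∞) (fun q => ∫ s in K, H q s ∂μ) := by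
  induction n with
  | zero =>
    intro F _ _ K hK H hH
    rw [Nat.cast_zero, contDiff_zero] at hH ⊢
    exact continuous_parametric_integral_of_continuous hH hK
  | succ n ih =>
    intro F _ _ K hK H hH
    have hH' := part_contDiff hH
    have i1 := ih (E →L[ℝ] F) hK (fun q s => fderiv ℝ (fun z => H z s) q) hH'
    have hd : ∀ q, HasFDerivAt (fun q => ∫ s in K, H q s ∂μ)
        (∫ s in K, fderiv ℝ (fun z => H z s) q ∂μ) q := fun q => hasFDeriv_int hK hH q
    push_cast
    rw [contDiff_succ_iff_fderiv]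
    refine ⟨fun q => (hd q).differentiableAt, fun h => absurd h (by simp), ?_⟩
    have e : fderiv ℝ (fun q => ∫ s in K, H q s ∂μ) =
        fun q => ∫ s in K, fderiv ℝ (fun z => H z s) q ∂μ := funext fun q => (hd q).fderiv
    rw [e]; exact i1

theorem dui : DuiStmt := by
  intro m h hh
  have hK : IsCompact (Icc (0 : Fin m → ℝ) 1) := isCompact_Icc
  have h1 : ContDiff ℝ ((0 + 1 : ℕ) : WithTop ℕ∞) (fun p : ℂ × (Fin m → ℝ) => h p.1 p.2) :=
    contDiff_infty.1 hh 1
  have hG : Continuous (fun x : ℂ × (Fin m → ℝ) => fderiv ℝ (fun z => h z x.2) x.1) :=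
    (part_contDiff h1).continuous
  refine ⟨?_, fun z => ?_, fun z => ?_⟩
  · rw [contDiff_infty]
    intro n
    exact contDiff_int n ℝ hK h (contDiff_infty.1 hh n)
  · have := (hasFDeriv_int (μ := volume) hK h1 z).fderiv
    show fderiv ℝ (fun z => tI (h z)) z 1 = _
    unfold tI
    rw [this, ContinuousLinearMap.integral_apply (int_slice hK hG z)]
    rfl
  · have := (hasFDeriv_int (μ := volume) hK h1 z).fderiv
    show fderiv ℝ (fun z => tI (h z)) z Complex.I = _
    unfold tI
    rw [this, ContinuousLinearMap.integral_apply (int_slice hK hG z)]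
    rfl

end Pool.Agent.BCS.H75
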